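import Mathlib
import Pool.Agent.TH876.KR.Fin

set_option autoImplicit false

/-!
# Counting functions truncated at a level `κ`
-/

namespace Pool.Agent.TH876.LT

open NumberField IsDedekindDomain Finset Pool.Agent.H691R3 Pool.Agent.TH876.Loc
open Pool.Agent.TH876.KR (form localHeight GoodPr tt tri)

variable {K : Type} [Field K] [NumberField K]

/-- the counting function relative to `D = a 0 + ... + a (q - 1)`, outside `S`, truncated at the
level `κ` -/
noncomputable def countingLevel (κ : ℝ) (S : Set (HeightOneSpectrum (𝓞 K))) {q : ℕ}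
    (a : Fin q → Fin 2 → K) (x : Fin 2 → K) : ℝ :=
  ∑ᶠ v ∈ {v : HeightOneSpectrum (𝓞 K) | v ∉ S},
    ∑ i, min (κ * Real.log (Ideal.absNorm v.asIdeal : ℝ)) (localHeight v (a i) x)

/-- the `K`-rational points `P` off `D`, of any height, with `exp N^(κ)_S(D, P) ≤ X` -/
def PointsLevel (κ : ℝ) (S : Set (HeightOneSpectrum (𝓞 K))) {q : ℕ} (a : Fin q → Fin 2 → K)
    (X : ℝ) : Set (Projectivization K (Fin 2 → K)) :=
  {P | ∃ (x : Fin 2 → K) (hx : x ≠ 0), P = Projectivization.mk K x hx ∧
    (∀ i, form (a i) x ≠ 0) ∧ Real.exp (countingLevel κ S a x) ≤ X}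

end Pool.Agent.TH876.LT
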