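import Mathlib
import Pool.Agent.TH876.KR.Main
import Pool.Agent.TH876.LT.Def

set_option autoImplicit false

/-!
# All heights, counting functions truncated at a level (helper698, job LT-3 of helper876)
-/

namespace Pool.Agent.TH876.LT

open NumberField IsDedekindDomain Finset Pool.Agent.H691R3 Pool.Agent.TH876.Loc
open Pool.Agent.TH876.KR (form localHeight GoodPr tt tri)

variable {K : Type} [Field K] [NumberField K]

private theorem finL_form_smul (c : K) (a x : Fin 2 → K) : form a (c • x) = c * form a x := by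
  unfold KR.form
  simp only [Pi.smul_apply, smul_eq_mul]
  ring

private theorem finL_m2_smul (v : Pr K) (c : K) (x : Fin 2 → K) :
    KR.m2 v (c • x) = fv v c * KR.m2 v x := by
  unfold KR.m2
  simp only [Pi.smul_apply, smul_eq_mul, map_mul]
  rw [mul_max_of_nonneg _ _ ((fv v).nonneg c)]

/-- the local height does not depend on the representative -/
private theorem finL_lh_smul (v : Pr K) {c : K} (hc : c ≠ 0) (a x : Fin 2 → K) :
    localHeight v a (c • x) = localHeight v a x := by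
  rw [KR.localHeight_eq, KR.localHeight_eq, finL_form_smul, finL_m2_smul, map_mul]
  congr 1
  have h : fv v c ≠ 0 := ((fv v).pos hc).ne'
  rw [mul_left_comm, mul_div_mul_left _ _ h]

private theorem finL_level_smul (κ : ℝ) (S : Set (HeightOneSpectrum (𝓞 K))) {q : ℕ}
    (a : Fin q → Fin 2 → K) {c : K} (hc : c ≠ 0) (x : Fin 2 → K) :
    countingLevel κ S a (c • x) = countingLevel κ S a x := by
  unfold countingLevel
  simp only [finL_lh_smul _ hc]

/-- only finitely many primes have a positive local height -/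
private theorem finL_finite (S : Set (Pr K)) {q : ℕ} (a : Fin q → Fin 2 → K) (T : Finset (Pr K))
    (hT : ∀ v, v ∉ T → v ∉ S ∧ GoodPr a v) {x : Fin 2 → K} (hx0 : x ≠ 0)
    (hx : ∀ i, form (a i) x ≠ 0) :
    {v : Pr K | v ∉ S ∧ 0 < ∑ i, localHeight v (a i) x}.Finite := by
  have h1 : (⋃ i, {v : Pr K | fv v (form (a i) x) ≠ 1}).Finite :=
    Set.finite_iUnion fun i => fv_support_finite (hx i)
  refine (T.finite_toSet.union ((KR.good_finite x).union h1)).subset ?_
  intro v hv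
  by_contra hcon
  rw [Set.mem_union, Set.mem_union, not_or, not_or] at hcon
  obtain ⟨k1, k2, k3⟩ := hcon
  have hg := (hT v k1).2
  have hgx : KR.Good v x := by
    by_contra h'
    exact k2 h'
  have h2 : ∀ i, fv v (form (a i) x) = 1 := by
    intro i
    by_contra h'
    exact k3 (Set.mem_iUnion.2 ⟨i, h'⟩)
  have h3 : ∑ i, localHeight v (a i) x = 0 := by
    refine Finset.sum_eq_zero fun i _ => ?_
    rw [KR.localHeight_eq, h2 i, hg.1 i, KR.m2_of_good hx0 hgx]
    simp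
  have h4 := hv.2
  rw [h3] at h4
  exact lt_irrefl _ h4

/-- the truncated counting function is at most the one truncated at the level `κ ≥ 1` -/
private theorem finL_counting_le
    (hlh : ∀ (v : Pr K) (a x : Fin 2 → K), a ≠ 0 → x ≠ 0 → form a x ≠ 0 →
      ∃ m : ℕ, localHeight v a x = m * Real.log (Nv v))
    (κ : ℝ) (hκ : 1 ≤ κ) (S : Set (Pr K)) {q : ℕ} (a : Fin q → Fin 2 → K) (T : Finset (Pr K))
    (hT : ∀ v, v ∉ T → v ∉ S ∧ GoodPr a v) {x : Fin 2 → K} (hx0 : x ≠ 0)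
    (ha0 : ∀ i, a i ≠ 0) (hx : ∀ i, form (a i) x ≠ 0) :
    KR.counting S a x ≤ countingLevel κ S a x := by
  classical
  have hfin := finL_finite S a T hT hx0 hx
  have hlog : ∀ v : Pr K, 0 < Real.log (Nv v) := fun v => KR.log_Nv_pos' v
  have hnn : ∀ (v : Pr K) i, 0 ≤ localHeight v (a i) x := fun v i =>
    KR.localHeight_nonneg v (hx i)
  have hmin : ∀ (v : Pr K) i, 0 ≤ min (κ * Real.log (Nv v)) (localHeight v (a i) x) := fun v i =>
    le_min (mul_nonneg (by linarith) (hlog v).le) (hnn v i)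
  have e1 : KR.counting S a x = ∑ v ∈ hfin.toFinset, Real.log (Nv v) := by
    unfold KR.counting
    rw [← finsum_mem_coe_finset, Set.Finite.coe_toFinset]
    rfl
  have e2 : countingLevel κ S a x =
      ∑ v ∈ hfin.toFinset, ∑ i, min (κ * Real.log (Nv v)) (localHeight v (a i) x) := by
    unfold countingLevel
    refine finsum_mem_eq_sum_of_inter_support_eq _ ?_
    ext v
    simp only [Set.mem_inter_iff, Set.mem_setOf_eq, Function.mem_support, Finset.mem_coe,
      Set.Finite.mem_toFinset]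
    constructor
    · rintro ⟨h1, h2⟩
      refine ⟨⟨h1, ?_⟩, h2⟩
      by_contra h3
      have h4 : ∑ i, localHeight v (a i) x = 0 :=
        le_antisymm (not_lt.1 h3) (Finset.sum_nonneg fun i _ => hnn v i)
      apply h2
      refine Finset.sum_eq_zero fun i _ => ?_
      have h5 := (Finset.sum_eq_zero_iff_of_nonneg fun i _ => hnn v i).1 h4 i (mem_univ i)
      rw [h5]
      exact min_eq_right (mul_nonneg (by linarith) (hlog v).le)
    · rintro ⟨h1, h2⟩
      exact ⟨h1.1, h2⟩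
  rw [e1, e2]
  refine Finset.sum_le_sum fun v hv => ?_
  obtain ⟨-, h2⟩ := hfin.mem_toFinset.1 hv
  obtain ⟨i, hi⟩ : ∃ i, 0 < localHeight v (a i) x := by
    by_contra hcon
    push Not at hcon
    exact absurd h2 (not_lt.2 (Finset.sum_nonpos fun i _ => hcon i))
  obtain ⟨m, hm⟩ := hlh v (a i) x (ha0 i) hx0 (hx i)
  have hm1 : 1 ≤ m := by
    rcases Nat.eq_zero_or_pos m with h | h
    · rw [hm, h] at hi
      simp at hi
    · exact h
  have hm1' : (1 : ℝ) ≤ m := by exact_mod_cast hm1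
  have h3 : Real.log (Nv v) ≤ min (κ * Real.log (Nv v)) (localHeight v (a i) x) := by
    refine le_min ?_ ?_
    · have := (hlog v).le
      nlinarith
    · rw [hm]
      have := (hlog v).le
      nlinarith
  exact h3.trans (Finset.single_le_sum
    (f := fun i => min (κ * Real.log (Nv v)) (localHeight v (a i) x)) (fun i _ => hmin v i)
    (mem_univ i))

variable (K) in
/-- the final statement -/
theorem finalLevel (hlarge : ∀ (κ : ℝ), 1 ≤ κ → ∀ (S : Set (HeightOneSpectrum (𝓞 K))), S.Finite →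
    ∀ (q : ℕ), 3 ≤ q → ∀ (a : Fin q → Fin 2 → K), (∀ i j, i ≠ j → form (a i) (a j) ≠ 0) →
    ∀ ε : ℝ, 0 < ε →
    ∃ C1 C : ℝ, 0 < C1 ∧ 0 < C ∧ ∀ X : ℝ, 1 ≤ X → ∀ F : Finset (Projectivization K (Fin 2 → K)),
      (∀ P ∈ F, (∀ i, form (a i) P.rep ≠ 0) ∧ Real.exp (countingLevel κ S a P.rep) ≤ X ∧
        C1 * (1 + Real.log X) ≤ Height.logHeight P.rep) →
      (F.card : ℝ) ≤ C * X ^ (max (2 / (q : ℝ)) (3 / (q * κ)) + ε))
    (hlh : ∀ (v : Pr K) (a x : Fin 2 → K), a ≠ 0 → x ≠ 0 → form a x ≠ 0 →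
      ∃ m : ℕ, localHeight v a x = m * Real.log (Nv v))
    (κ : ℝ) (hκ : 1 ≤ κ) (S : Set (HeightOneSpectrum (𝓞 K))) (hS : S.Finite) (q : ℕ) (hq : 3 ≤ q)
    (a : Fin q → Fin 2 → K) (ha : ∀ i j, i ≠ j → form (a i) (a j) ≠ 0) (ε : ℝ) (hε : 0 < ε) :
    ∃ C : ℝ, ∀ X : ℝ, 1 ≤ X → (PointsLevel κ S a X).Finite ∧
      ((PointsLevel κ S a X).ncard : ℝ) ≤
        C * X ^ (max (2 / (q : ℝ)) (3 / (q * κ)) + ε) := by
  classical
  obtain ⟨C1, C, hC1, hC, hl⟩ := hlarge κ hκ S hS q hq a ha ε hε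
  obtain ⟨C2', hC2'⟩ := KR.final K (KR.main_count K) S hS q hq a ha (ε / 2) (by positivity)
  obtain ⟨T, hT⟩ := KR.bad_finite hq S hS ha
  have ha0 : ∀ i, a i ≠ 0 := by
    intro i
    obtain ⟨j, hj⟩ : ∃ j : Fin q, i ≠ j := by
      by_cases h : i = ⟨0, by omega⟩
      · refine ⟨⟨1, by omega⟩, ?_⟩
        rw [h]
        intro h'
        have := congrArg Fin.val h'
        simp at this
      · exact ⟨_, h⟩
    exact KR.ne_zero_of_form (ha i j hj)
  obtain ⟨C2, hC2d⟩ : ∃ C2 : ℝ, C2 = max C2' 0 := ⟨_, rfl⟩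
  have hC20 : 0 ≤ C2 := by rw [hC2d]; exact le_max_right _ _
  have hC2C : C2' ≤ C2 := by rw [hC2d]; exact le_max_left _ _
  obtain ⟨M, hM⟩ : ∃ M : ℝ, M = max (2 / (q : ℝ)) (3 / (q * κ)) := ⟨_, rfl⟩
  have hM2 : 2 / (q : ℝ) ≤ M := by rw [hM]; exact le_max_left _ _
  refine ⟨C + C2 * ((C1 + 1) * (1 + 2 / ε)), ?_⟩
  intro X hX
  rw [← hM]
  have hX0 : 0 < X := by linarith
  have hlX : 0 ≤ Real.log X := Real.log_nonneg hX
  obtain ⟨H, hH⟩ : ∃ H : ℝ, H = C1 * (1 + Real.log X) + 1 := ⟨_, rfl⟩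
  have hH1 : 1 ≤ H := by
    rw [hH]
    have : 0 ≤ C1 * (1 + Real.log X) := by positivity
    linarith
  obtain ⟨hfinP, hcardP⟩ := hC2' X H hX hH1
  -- the height is at most a power
  have hpow1 : 1 ≤ X ^ (ε / 2) := Real.one_le_rpow hX (by positivity)
  have hHle : H ≤ (C1 + 1) * (1 + 2 / ε) * X ^ (ε / 2) := by
    have h1 : Real.log X ≤ X ^ (ε / 2) / (ε / 2) := Real.log_le_rpow_div hX0.le (by positivity)
    have h2 : X ^ (ε / 2) / (ε / 2) = 2 / ε * X ^ (ε / 2) := by field_simp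
    rw [h2] at h1
    have h3 : 1 + Real.log X ≤ (1 + 2 / ε) * X ^ (ε / 2) := by
      rw [add_mul, one_mul]
      exact add_le_add hpow1 h1
    have h4 : H ≤ (C1 + 1) * (1 + Real.log X) := by
      rw [hH]
      nlinarith
    calc H ≤ (C1 + 1) * (1 + Real.log X) := h4
      _ ≤ (C1 + 1) * ((1 + 2 / ε) * X ^ (ε / 2)) :=
          mul_le_mul_of_nonneg_left h3 (by linarith)
      _ = _ := by ring
  have hsmall : ((KR.Points S a X H).ncard : ℝ) ≤
      C2 * ((C1 + 1) * (1 + 2 / ε)) * X ^ (M + ε) := by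
    refine hcardP.trans ?_
    have h5 : 0 ≤ X ^ (2 / (q : ℝ) + ε / 2) := Real.rpow_nonneg hX0.le _
    have h7 : 0 ≤ C2 * ((C1 + 1) * (1 + 2 / ε)) := by positivity
    calc C2' * H * X ^ (2 / (q : ℝ) + ε / 2) ≤ C2 * H * X ^ (2 / (q : ℝ) + ε / 2) :=
          mul_le_mul_of_nonneg_right (mul_le_mul_of_nonneg_right hC2C (by linarith)) h5
      _ ≤ C2 * ((C1 + 1) * (1 + 2 / ε) * X ^ (ε / 2)) * X ^ (2 / (q : ℝ) + ε / 2) :=
          mul_le_mul_of_nonneg_right (mul_le_mul_of_nonneg_left hHle hC20) h5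
      _ = C2 * ((C1 + 1) * (1 + 2 / ε)) * (X ^ (ε / 2) * X ^ (2 / (q : ℝ) + ε / 2)) := by ring
      _ = C2 * ((C1 + 1) * (1 + 2 / ε)) * X ^ (ε / 2 + (2 / (q : ℝ) + ε / 2)) := by
          rw [← Real.rpow_add hX0]
      _ ≤ _ := by
          refine mul_le_mul_of_nonneg_left ?_ h7
          exact Real.rpow_le_rpow_of_exponent_le hX (by linarith)
  -- the points, with the standard representative
  have hrep : ∀ P ∈ PointsLevel κ S a X, (∀ i, form (a i) P.rep ≠ 0) ∧
      Real.exp (countingLevel κ S a P.rep) ≤ X := by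
    rintro P ⟨x, hx0, e, hx, h1⟩
    have e2 : Projectivization.mk K P.rep P.rep_nonzero = Projectivization.mk K x hx0 := by
      rw [P.mk_rep, e]
    obtain ⟨c, hc⟩ := (Projectivization.mk_eq_mk_iff' K _ _ P.rep_nonzero hx0).1 e2
    have hc0 : c ≠ 0 := by
      rintro rfl
      apply P.rep_nonzero
      rw [← hc, zero_smul]
    rw [← hc]
    refine ⟨fun i => ?_, ?_⟩
    · rw [finL_form_smul]
      exact mul_ne_zero hc0 (hx i)
    · rw [finL_level_smul κ S a hc0]
      exact h1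
  have hin : ∀ P ∈ PointsLevel κ S a X, Height.logHeight P.rep < C1 * (1 + Real.log X) →
      P ∈ KR.Points S a X H := by
    intro P hP hh
    obtain ⟨h1, h2⟩ := hrep P hP
    refine ⟨P.rep, P.rep_nonzero, P.mk_rep.symm, h1, ?_, ?_⟩
    · refine le_trans (Real.exp_le_exp.2 ?_) h2
      exact finL_counting_le hlh κ hκ S a T hT P.rep_nonzero ha0 h1
    · rw [hH]
      linarith
  obtain ⟨B, hB⟩ : ∃ B : ℝ, B = (C + C2 * ((C1 + 1) * (1 + 2 / ε))) * X ^ (M + ε) := ⟨_, rfl⟩
  rw [← hB]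
  have hbound : ∀ G : Finset (Projectivization K (Fin 2 → K)),
      (G : Set _) ⊆ PointsLevel κ S a X → (G.card : ℝ) ≤ B := by
    intro G hG
    have h1 := hl X hX (G.filter fun P => C1 * (1 + Real.log X) ≤ Height.logHeight P.rep) (by
      intro P hP
      obtain ⟨k1, k2⟩ := Finset.mem_filter.1 hP
      obtain ⟨k3, k4⟩ := hrep P (hG k1)
      exact ⟨k3, k4, k2⟩)
    rw [← hM] at h1
    have h2 : ((G.filter fun P => ¬ C1 * (1 + Real.log X) ≤ Height.logHeight P.rep).card : ℝ) ≤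
        ((KR.Points S a X H).ncard : ℝ) := by
      rw [← Set.ncard_coe_finset]
      refine Nat.cast_le.2 (Set.ncard_le_ncard ?_ hfinP)
      intro P hP
      obtain ⟨k1, k2⟩ := Finset.mem_filter.1 (Finset.mem_coe.1 hP)
      exact hin P (hG k1) (not_le.1 k2)
    have h3 : (G.card : ℝ) =
        ((G.filter fun P => C1 * (1 + Real.log X) ≤ Height.logHeight P.rep).card : ℝ) +
        ((G.filter fun P => ¬ C1 * (1 + Real.log X) ≤ Height.logHeight P.rep).card : ℝ) := by
      rw [← Nat.cast_add, Finset.card_filter_add_card_filter_not]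
    rw [h3, hB, add_mul]
    exact add_le_add h1 (h2.trans hsmall)
  have hfin : (PointsLevel κ S a X).Finite := by
    by_contra hinf
    obtain ⟨G, hGV, hGc⟩ := Set.Infinite.exists_subset_card_eq hinf (⌊B⌋₊ + 1)
    have h1 := hbound G hGV
    have h2 := Nat.lt_floor_add_one B
    rw [hGc] at h1
    push_cast at h1
    linarith
  refine ⟨hfin, ?_⟩
  rw [Set.ncard_eq_toFinset_card _ hfin]
  exact hbound hfin.toFinset (by rw [Set.Finite.coe_toFinset])

end Pool.Agent.TH876.LT
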