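import Mathlib
import Pool.Agent.TH876.KR.Sets
import Pool.Agent.TH876.Light
import Pool.Agent.TH876.MN.LightS
import Pool.Agent.TH876.LT.Def

set_option autoImplicit false

/-!
# Points of large height (helper991 for helper876)
-/

namespace Pool.Agent.TH876.LT

open NumberField IsDedekindDomain Finset Pool.Agent.H691R3 Pool.Agent.TH876.Loc
open Pool.Agent.TH876.KR (form localHeight GoodPr tt tri)

variable {K : Type} [Field K] [NumberField K]

/-- the primes with a nonzero local height are finite in number -/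
private theorem large_support {q : ℕ} {a : Fin q → Fin 2 → K} (T : Finset (Pr K))
    (hT : ∀ v, v ∉ T → GoodPr a v) {x : Fin 2 → K} (hx0 : x ≠ 0)
    (hx : ∀ i, form (a i) x ≠ 0) : {v : Pr K | ∃ i, localHeight v (a i) x ≠ 0}.Finite := by
  have h1 : (⋃ i, {v : Pr K | fv v (form (a i) x) ≠ 1}).Finite :=
    Set.finite_iUnion fun i => fv_support_finite (hx i)
  refine (T.finite_toSet.union ((KR.good_finite x).union h1)).subset ?_
  rintro v ⟨i, hi⟩
  by_contra hcon
  rw [Set.mem_union, Set.mem_union, not_or, not_or] at hcon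
  obtain ⟨k1, k2, k3⟩ := hcon
  have hg := hT v k1
  have hgx : KR.Good v x := by
    by_contra h'
    exact k2 h'
  have h2 : fv v (form (a i) x) = 1 := by
    by_contra h'
    exact k3 (Set.mem_iUnion.2 ⟨i, h'⟩)
  apply hi
  rw [KR.localHeight_eq, h2, hg.1 i, KR.m2_of_good hx0 hgx]
  simp

private theorem large_term_nonneg {κ : ℝ} (hκ : 1 ≤ κ) {q : ℕ} {a : Fin q → Fin 2 → K}
    {x : Fin 2 → K} (hx : ∀ i, form (a i) x ≠ 0) (v : Pr K) (i : Fin q) :
    0 ≤ min (κ * Real.log (Nv v)) (localHeight v (a i) x) :=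
  le_min (mul_nonneg (by linarith) (KR.log_Nv_pos' v).le) (KR.localHeight_nonneg v (hx i))

/-- finite partial sums of the counting function -/
private theorem large_partial {κ : ℝ} (hκ : 1 ≤ κ) (S : Set (Pr K)) {q : ℕ}
    {a : Fin q → Fin 2 → K} (T : Finset (Pr K)) (hT : ∀ v, v ∉ T → GoodPr a v)
    {x : Fin 2 → K} (hx0 : x ≠ 0) (hx : ∀ i, form (a i) x ≠ 0) (W : Finset (Pr K))
    (hW : ∀ v ∈ W, v ∉ S) :
    ∑ v ∈ W, ∑ i, min (κ * Real.log (Nv v)) (localHeight v (a i) x) ≤
      countingLevel κ S a x := by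
  classical
  set f : Pr K → ℝ := fun v => ∑ i, min (κ * Real.log (Nv v)) (localHeight v (a i) x) with hf
  have hfin := large_support T hT hx0 hx
  have hf0 : ∀ v, 0 ≤ f v := fun v => Finset.sum_nonneg fun i _ => large_term_nonneg hκ hx v i
  have hsupp : ∀ v, f v ≠ 0 → v ∈ hfin.toFinset := by
    intro v hv
    rw [Set.Finite.mem_toFinset]
    by_contra hcon
    apply hv
    refine Finset.sum_eq_zero fun i _ => ?_
    have h0 : localHeight v (a i) x = 0 := by
      by_contra h
      exact hcon ⟨i, h⟩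
    rw [h0]
    exact min_eq_right (mul_nonneg (by linarith) (KR.log_Nv_pos' v).le)
  have h1 : countingLevel κ S a x = ∑ v ∈ (hfin.toFinset ∪ W).filter (fun v => v ∉ S), f v := by
    unfold countingLevel
    refine finsum_mem_eq_sum_of_inter_support_eq f ?_
    ext v
    simp only [Set.mem_inter_iff, Function.mem_support, Finset.coe_filter, Finset.mem_union,
      Set.mem_ofPred_eq]
    constructor
    · rintro ⟨h1, h2⟩
      exact ⟨⟨Or.inl (hsupp v h2), h1⟩, h2⟩
    · rintro ⟨⟨_, h1⟩, h2⟩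
      exact ⟨h1, h2⟩
  rw [h1]
  refine Finset.sum_le_sum_of_subset_of_nonneg ?_ fun v _ _ => hf0 v
  intro v hv
  exact Finset.mem_filter.2 ⟨Finset.mem_union_right _ hv, hW v hv⟩

private theorem large_union_le (s t : Finset (Pr K)) [DecidableEq (Pr K)] :
    nn (s ∪ t) ≤ nn s * nn t := by
  have h1 : nn (s ∪ t) = nn s * nn (t \ s) := by
    rw [← nn_union Finset.disjoint_sdiff, Finset.union_sdiff_self_eq_union]
  rw [h1]
  exact mul_le_mul_of_nonneg_left (nn_mono Finset.sdiff_subset) (nn_pos s).le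

/-- the choice of three points and of the set of primes of multiplicity at least two -/
private theorem large_choice (hlh : ∀ (v : Pr K) (a x : Fin 2 → K), a ≠ 0 → x ≠ 0 →
      form a x ≠ 0 → ∃ m : ℕ, localHeight v a x = m * Real.log (Nv v))
    (hgd : ∀ (a : Fin 3 → Fin 2 → K), (∀ i j, i ≠ j → form (a i) (a j) ≠ 0) →
      ∀ x : Fin 2 → K, (∀ i, form (a i) x ≠ 0) → ∀ v : Pr K, GoodPr a v →
      gd (Sum.inr v : Pl K) (tt a x) = ∑ k, localHeight v (a k) x)
    {κ : ℝ} (hκ : 1 ≤ κ) (S : Set (Pr K)) {q : ℕ} (hq : 3 ≤ q)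
    {a : Fin q → Fin 2 → K} (ha : ∀ i j, i ≠ j → form (a i) (a j) ≠ 0) (T : Finset (Pr K))
    (hT : ∀ v, v ∉ T → v ∉ S ∧ GoodPr a v) [DecidableEq (Pr K)]
    {x : Fin 2 → K} (hx0 : x ≠ 0) (hx : ∀ i, form (a i) x ≠ 0) {X : ℝ} (hX : 1 ≤ X)
    (h : Real.exp (countingLevel κ S a x) ≤ X) :
    ∃ (s : Fin q) (u : Finset (Pr K)), nn u ≤ X ^ (3 / (q * min κ 2)) ∧
      out (T ∪ u) (tt (tri a s) x) ≤ Real.log X := by
  classical
  have hX0 : 0 < X := by linarith
  have hcl : countingLevel κ S a x ≤ Real.log X := (Real.le_log_iff_exp_le hX0).2 h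
  have hTg : ∀ v, v ∉ T → GoodPr a v := fun v hv => (hT v hv).2
  have hfin := large_support T hTg hx0 hx
  set J : Finset (Pr K) := hfin.toFinset \ T with hJ
  have hJS : ∀ v ∈ J, v ∉ S := fun v hv => (hT v (Finset.mem_sdiff.1 hv).2).1
  set k' : ℝ := min κ 2 with hk'
  have hk'1 : 1 ≤ k' := le_min hκ (by norm_num)
  set si : Fin q → Finset (Pr K) := fun i =>
    J.filter fun v => 2 * Real.log (Nv v) ≤ localHeight v (a i) x with hsi
  have hsum : ∑ i, k' * Real.log (nn (si i)) ≤ Real.log X := by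
    refine le_trans ?_ ((large_partial hκ S T hTg hx0 hx J hJS).trans hcl)
    rw [Finset.sum_comm]
    refine Finset.sum_le_sum fun i _ => ?_
    rw [KR.log_nn, Finset.mul_sum]
    refine (Finset.sum_le_sum (g := fun v => min (κ * Real.log (Nv v))
      (localHeight v (a i) x)) fun v hv => ?_).trans
      (Finset.sum_le_sum_of_subset_of_nonneg (Finset.filter_subset _ _)
        fun v _ _ => large_term_nonneg hκ hx v i)
    have hv2 := (Finset.mem_filter.1 hv).2
    have hl := (KR.log_Nv_pos' v).le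
    refine le_min ?_ ?_
    · exact mul_le_mul_of_nonneg_right (min_le_left _ _) hl
    · exact (mul_le_mul_of_nonneg_right (min_le_right _ _) hl).trans hv2
  obtain ⟨s, hs⟩ := KR.three_small hq (fun i => k' * Real.log (nn (si i))) _ hsum
  set r : Fin 3 → Fin q := fun k => finRotate q ^ (k : ℕ) • s with hr
  have hrinj : Function.Injective r := KR.rotate_inj hq s
  have hs' : k' * Real.log (nn (si (r 0))) + k' * Real.log (nn (si (r 1))) +
      k' * Real.log (nn (si (r 2))) ≤ 3 / q * Real.log X := by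
    have := hs
    rw [Fin.sum_univ_three] at this
    exact this
  refine ⟨s, (si (r 0) ∪ si (r 1)) ∪ si (r 2), ?_, ?_⟩
  · have h1 : nn ((si (r 0) ∪ si (r 1)) ∪ si (r 2)) ≤
        nn (si (r 0)) * nn (si (r 1)) * nn (si (r 2)) :=
      (large_union_le _ _).trans
        (mul_le_mul_of_nonneg_right (large_union_le _ _) (nn_pos _).le)
    refine h1.trans ?_
    have hp := mul_pos (mul_pos (nn_pos (si (r 0))) (nn_pos (si (r 1)))) (nn_pos (si (r 2)))
    rw [← Real.log_le_log_iff hp (Real.rpow_pos_of_pos hX0 _), Real.log_rpow hX0,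
      Real.log_mul (mul_pos (nn_pos _) (nn_pos _)).ne' (nn_pos _).ne',
      Real.log_mul (nn_pos _).ne' (nn_pos _).ne']
    have hq0 : (0 : ℝ) < q := by exact_mod_cast (by omega : 0 < q)
    have hk0 : 0 < k' := by linarith
    have e : 3 / ((q : ℝ) * k') * Real.log X = (3 / q * Real.log X) / k' := by
      field_simp
    rw [e, le_div_iff₀ hk0]
    linarith
  · have hxs : ∀ i, form (tri a s i) x ≠ 0 := fun i => hx _
    have hane : ∀ i, a i ≠ 0 := by
      intro i
      have hex : ∃ j : Fin q, i ≠ j := by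
        by_cases h : i = ⟨0, by omega⟩
        · refine ⟨⟨1, by omega⟩, ?_⟩
          rw [h]
          intro h'
          have := congrArg Fin.val h'
          simp at this
        · exact ⟨_, h⟩
      obtain ⟨j, hj⟩ := hex
      exact KR.ne_zero_of_form (ha i j hj)
    unfold out
    refine le_trans ?_ ((large_partial hκ S T hTg hx0 hx
      (sp (tt (tri a s) x) \ (T ∪ ((si (r 0) ∪ si (r 1)) ∪ si (r 2)))) ?_).trans hcl)
    · refine le_of_eq_of_le (Finset.sum_congr ?_ fun v _ => rfl) (Finset.sum_le_sum fun v hv => ?_)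
      · ext v
        simp only [Finset.mem_sdiff]
      · rw [Finset.mem_sdiff, Finset.mem_union, not_or, Finset.mem_union, not_or,
          Finset.mem_union, not_or] at hv
        obtain ⟨_, hvT, ⟨hv0, hv1⟩, hv2⟩ := hv
        have hgood := hTg v hvT
        rw [hgd (tri a s) (KR.tri_ne hq ha s) x hxs v (KR.tri_good hq hgood s)]
        have hl := KR.log_Nv_pos' v
        have hnot : ∀ k : Fin 3, v ∉ si (r k) := by
          intro k
          fin_cases k
          · exact hv0
          · exact hv1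
          · exact hv2
        have key : ∀ k : Fin 3, localHeight v (tri a s k) x ≤
            min (κ * Real.log (Nv v)) (localHeight v (a (r k)) x) := by
          intro k
          have e : tri a s k = a (r k) := rfl
          rw [e]
          refine le_min ?_ le_rfl
          obtain ⟨m, hm⟩ := hlh v (a (r k)) x (hane _) hx0 (hx _)
          have hlt : localHeight v (a (r k)) x < 2 * Real.log (Nv v) := by
            by_contra hcon
            push Not at hcon
            apply hnot k
            rw [hsi, Finset.mem_filter, hJ, Finset.mem_sdiff, Set.Finite.mem_toFinset]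
            refine ⟨⟨⟨r k, ?_⟩, hvT⟩, hcon⟩
            have : 0 < localHeight v (a (r k)) x := by linarith
            exact this.ne'
          rw [hm] at hlt ⊢
          have hm2 : (m : ℝ) < 2 := lt_of_mul_lt_mul_right hlt hl.le
          have hm2' : m < 2 := by exact_mod_cast hm2
          have hm1 : m ≤ 1 := by omega
          have hm1' : (m : ℝ) ≤ 1 := by exact_mod_cast hm1
          exact mul_le_mul_of_nonneg_right (hm1'.trans hκ) hl.le
        calc ∑ k, localHeight v (tri a s k) x
            ≤ ∑ k, min (κ * Real.log (Nv v)) (localHeight v (a (r k)) x) :=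
              Finset.sum_le_sum fun k _ => key k
          _ = ∑ i ∈ (Finset.univ : Finset (Fin 3)).image r,
                min (κ * Real.log (Nv v)) (localHeight v (a i) x) := by
              rw [Finset.sum_image fun i _ j _ hij => hrinj hij]
          _ ≤ ∑ i, min (κ * Real.log (Nv v)) (localHeight v (a i) x) :=
              Finset.sum_le_sum_of_subset_of_nonneg (Finset.subset_univ _)
                fun i _ _ => large_term_nonneg hκ hx v i
    · intro v hv
      rw [Finset.mem_sdiff, Finset.mem_union, not_or] at hv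
      exact (hT v hv.2.1).1

variable (K) in
/-- points of large height: only the primes of multiplicity at least two matter -/
theorem large (hlh : ∀ (v : Pr K) (a x : Fin 2 → K), a ≠ 0 → x ≠ 0 → form a x ≠ 0 →
      ∃ m : ℕ, localHeight v a x = m * Real.log (Nv v))
    (hgd : ∀ (a : Fin 3 → Fin 2 → K), (∀ i j, i ≠ j → form (a i) (a j) ≠ 0) →
      ∀ x : Fin 2 → K, (∀ i, form (a i) x ≠ 0) → ∀ v : Pr K, GoodPr a v →
      gd (Sum.inr v : Pl K) (tt a x) = ∑ k, localHeight v (a k) x)
    (hge : ∀ (a : Fin 3 → Fin 2 → K), (∀ i j, i ≠ j → form (a i) (a j) ≠ 0) →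
      ∃ c : ℝ, ∀ x : Fin 2 → K, x ≠ 0 → (∀ i, form (a i) x ≠ 0) →
      Height.logHeight x ≤ hgt (tt a x) + c)
    (κ : ℝ) (hκ : 1 ≤ κ) (S : Set (HeightOneSpectrum (𝓞 K))) (hS : S.Finite) (q : ℕ) (hq : 3 ≤ q)
    (a : Fin q → Fin 2 → K) (ha : ∀ i j, i ≠ j → form (a i) (a j) ≠ 0) (ε : ℝ) (hε : 0 < ε) :
    ∃ C1 C : ℝ, 0 < C1 ∧ 0 < C ∧ ∀ X : ℝ, 1 ≤ X → ∀ F : Finset (Projectivization K (Fin 2 → K)),
      (∀ P ∈ F, (∀ i, form (a i) P.rep ≠ 0) ∧ Real.exp (countingLevel κ S a P.rep) ≤ X ∧
        C1 * (1 + Real.log X) ≤ Height.logHeight P.rep) →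
      (F.card : ℝ) ≤ C * X ^ (max (2 / (q : ℝ)) (3 / (q * κ)) + ε) := by
  classical
  obtain ⟨T, hT⟩ := KR.bad_finite hq S hS ha
  obtain ⟨C0, hC0, hlight⟩ := light_count (Module.finrank ℚ K) (1 / 4) (by norm_num)
  obtain ⟨D, hD0, hD⟩ := (KR.sum_sets K C0 hC0 ε hε).2
  have hcs : ∀ s : Fin q, ∃ c : ℝ, ∀ x : Fin 2 → K, x ≠ 0 → (∀ i, form (tri a s i) x ≠ 0) →
      Height.logHeight x ≤ hgt (tt (tri a s) x) + c := fun s => hge (tri a s) (KR.tri_ne hq ha s)
  choose cs hcs using hcs
  set c : ℝ := ∑ s, |cs s| with hc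
  have hc0 : 0 ≤ c := Finset.sum_nonneg fun s _ => abs_nonneg _
  have hcc : ∀ s, cs s ≤ c := fun s => (le_abs_self _).trans
    (Finset.single_le_sum (f := fun s => |cs s|) (fun s _ => abs_nonneg _) (Finset.mem_univ s))
  have hq0 : (3 : ℝ) ≤ q := by exact_mod_cast hq
  have hqpos : (0 : ℝ) < q := by linarith
  have hC00 : 0 < C0 := by linarith
  refine ⟨4 + c, q * (C0 ^ (T.card + 1) * D), by linarith, by positivity, ?_⟩
  intro X hX F hF
  have hX0 : 0 < X := by linarith
  have hlX : 0 ≤ Real.log X := Real.log_nonneg hX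
  set k' : ℝ := min κ 2 with hk'
  have hk'1 : 1 ≤ k' := le_min hκ (by norm_num)
  have hk'0 : 0 < k' := by linarith
  set M : ℝ := X ^ (3 / (q * k')) with hM
  have hM1 : 1 ≤ M := Real.one_le_rpow hX (by positivity)
  have hex : ∀ P : Projectivization K (Fin 2 → K), ∃ (s : Fin q) (u : Finset (Pr K)),
      P ∈ F → nn u ≤ M ∧ out (T ∪ u) (tt (tri a s) P.rep) ≤ Real.log X := by
    intro P
    by_cases hP : P ∈ F
    · obtain ⟨h1, h2, _⟩ := hF P hP
      obtain ⟨s, u, h3, h4⟩ := large_choice hlh hgd hκ S hq ha T hT P.rep_nonzero h1 hX h2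
      exact ⟨s, u, fun _ => ⟨h3, h4⟩⟩
    · exact ⟨⟨0, by omega⟩, ∅, fun h => absurd h hP⟩
  choose fs fu hfu using hex
  -- one fibre
  have hfib : ∀ (s : Fin q) (u : Finset (Pr K)),
      ((F.filter fun P => fs P = s ∧ fu P = u).card : ℝ) ≤ C0 ^ (T.card + 1) * C0 ^ u.card := by
    intro s u
    set G := F.filter fun P => fs P = s ∧ fu P = u with hG
    have hinj : Set.InjOn (fun P : Projectivization K (Fin 2 → K) => tt (tri a s) P.rep) G := by
      intro P hP R hR hPR
      have hP' := (Finset.mem_filter.1 (Finset.mem_coe.1 hP)).1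
      have hR' := (Finset.mem_filter.1 (Finset.mem_coe.1 hR)).1
      obtain ⟨k, hk⟩ := KR.tt_inj (KR.tri_ne hq ha s) (x := P.rep) (y := R.rep)
        (fun i => (hF P hP').1 _) (fun i => (hF R hR').1 _) hPR
      rw [← P.mk_rep, ← R.mk_rep, Projectivization.mk_eq_mk_iff']
      exact ⟨k, hk⟩
    rw [← Finset.card_image_of_injOn hinj]
    have h1 := hlight K rfl (T ∪ u)
      (G.image fun P : Projectivization K (Fin 2 → K) => tt (tri a s) P.rep) (by
      intro t ht
      obtain ⟨P, hP, rfl⟩ := Finset.mem_image.1 ht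
      obtain ⟨hPF, hPs, hPu⟩ := Finset.mem_filter.1 hP
      obtain ⟨g1, g2, g3⟩ := hF P hPF
      obtain ⟨_, g4⟩ := hfu P hPF
      rw [hPs, hPu] at g4
      refine ⟨KR.Pt_tt (KR.tri_ne hq ha s) fun i => g1 _, g4.trans ?_⟩
      have g5 := hcs s P.rep P.rep_nonzero fun i => g1 _
      have g6 := hcc s
      have g7 : 4 * Real.log X + c ≤ (4 + c) * (1 + Real.log X) := by nlinarith
      linarith)
    refine h1.trans ?_
    rw [← pow_add]
    refine pow_le_pow_right₀ hC0 ?_
    have := Finset.card_union_le T u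
    omega
  -- all fibres
  set U : Finset (Finset (Pr K)) := F.image fu with hU
  have hUM : ∀ u ∈ U, nn u ≤ M := by
    intro u hu
    obtain ⟨P, hP, rfl⟩ := Finset.mem_image.1 hu
    exact (hfu P hP).1
  have hsum : (F.card : ℝ) ≤ ∑ p ∈ (Finset.univ : Finset (Fin q)) ×ˢ U,
      C0 ^ (T.card + 1) * C0 ^ p.2.card := by
    have h1 : F.card = ∑ p ∈ (Finset.univ : Finset (Fin q)) ×ˢ U,
        (F.filter fun P => (fs P, fu P) = p).card :=
      Finset.card_eq_sum_card_fiberwise fun P hP =>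
        Finset.mem_product.2 ⟨Finset.mem_univ _, Finset.mem_image_of_mem _ hP⟩
    rw [h1]
    push_cast
    refine Finset.sum_le_sum fun p _ => ?_
    have h2 := hfib p.1 p.2
    have h3 : (F.filter fun P => (fs P, fu P) = p) = F.filter fun P => fs P = p.1 ∧ fu P = p.2 := by
      refine Finset.filter_congr fun P _ => ?_
      rw [Prod.ext_iff]
    rw [h3]
    exact h2
  have hsum2 : ∑ p ∈ (Finset.univ : Finset (Fin q)) ×ˢ U, C0 ^ (T.card + 1) * C0 ^ p.2.card =
      q * (C0 ^ (T.card + 1) * ∑ u ∈ U, C0 ^ u.card) := by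
    rw [Finset.sum_product]
    simp only [Finset.sum_const, Finset.card_univ, Fintype.card_fin, nsmul_eq_mul,
      ← Finset.mul_sum]
  have hexp : M ^ (1 + ε) ≤ X ^ (max (2 / (q : ℝ)) (3 / (q * κ)) + ε) := by
    rw [hM, ← Real.rpow_mul hX0.le]
    refine Real.rpow_le_rpow_of_exponent_le hX ?_
    have h1 : 3 / ((q : ℝ) * k') ≤ 1 := by
      rw [div_le_one (by positivity)]
      nlinarith
    have h2 : 3 / ((q : ℝ) * k') ≤ max (2 / (q : ℝ)) (3 / (q * κ)) := by
      rcases le_total κ 2 with h | h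
      · rw [hk', min_eq_left h]
        exact le_max_right _ _
      · rw [hk', min_eq_right h]
        refine le_trans ?_ (le_max_left _ _)
        rw [div_le_div_iff₀ (by positivity) hqpos]
        nlinarith
    have h3 : 3 / ((q : ℝ) * k') * (1 + ε) = 3 / ((q : ℝ) * k') + 3 / ((q : ℝ) * k') * ε := by ring
    rw [h3]
    nlinarith
  calc (F.card : ℝ) ≤ q * (C0 ^ (T.card + 1) * ∑ u ∈ U, C0 ^ u.card) := hsum.trans hsum2.le
    _ ≤ q * (C0 ^ (T.card + 1) * (D * M ^ (1 + ε))) := by
        refine mul_le_mul_of_nonneg_left ?_ hqpos.le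
        exact mul_le_mul_of_nonneg_left (hD M hM1 U hUM) (by positivity)
    _ ≤ q * (C0 ^ (T.card + 1) * (D * X ^ (max (2 / (q : ℝ)) (3 / (q * κ)) + ε))) := by
        refine mul_le_mul_of_nonneg_left ?_ hqpos.le
        refine mul_le_mul_of_nonneg_left ?_ (by positivity)
        exact mul_le_mul_of_nonneg_left hexp hD0.le
    _ = _ := by ring

end Pool.Agent.TH876.LT
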