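import Mathlib
import Pool.Agent.TH876.LT.Def

set_option autoImplicit false

namespace Pool.Agent.TH876.LT

open NumberField IsDedekindDomain Finset Pool.Agent.H691R3 Pool.Agent.TH876.Loc
open Pool.Agent.TH876.KR (form localHeight GoodPr tt tri)

variable {K : Type} [Field K] [NumberField K]

private theorem local_m2_att (v : Pr K) {x : Fin 2 → K} (hx : x ≠ 0) :
    ∃ j, x j ≠ 0 ∧ KR.m2 v x = fv v (x j) := by
  unfold KR.m2
  rcases le_total (fv v (x 0)) (fv v (x 1)) with h | h
  · refine ⟨1, fun h1 => hx ?_, max_eq_right h⟩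
    rw [h1, map_zero] at h
    have h0 : x 0 = 0 := by
      by_contra h0
      exact absurd h (not_le.2 ((fv v).pos h0))
    funext j
    fin_cases j
    · exact h0
    · exact h1
  · refine ⟨0, fun h1 => hx ?_, max_eq_left h⟩
    rw [h1, map_zero] at h
    have h0 : x 1 = 0 := by
      by_contra h0
      exact absurd h (not_le.2 ((fv v).pos h0))
    funext j
    fin_cases j
    · exact h1
    · exact h0

private theorem local_m2_pos (v : Pr K) {x : Fin 2 → K} (hx : x ≠ 0) : 0 < KR.m2 v x := by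
  obtain ⟨j, hj, e⟩ := local_m2_att v hx
  rw [e]
  exact (fv v).pos hj

/-- local heights are multiples of `log N(v)` -/
theorem lh_int (v : Pr K) {a x : Fin 2 → K} (ha : a ≠ 0) (hx : x ≠ 0) (h : form a x ≠ 0) :
    ∃ m : ℕ, localHeight v a x = m * Real.log (Nv v) := by
  obtain ⟨i, hi, ei⟩ := local_m2_att v ha
  obtain ⟨j, hj, ej⟩ := local_m2_att v hx
  obtain ⟨p, hp⟩ := log_fv v hi
  obtain ⟨q, hq⟩ := log_fv v hj
  obtain ⟨r, hr⟩ := log_fv v h
  have h0 := KR.localHeight_nonneg v h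
  have h1 : localHeight v a x = ((p + q - r : ℤ) : ℝ) * Real.log (Nv v) := by
    rw [KR.localHeight_eq, Real.log_div (mul_pos (local_m2_pos v ha) (local_m2_pos v hx)).ne'
      ((fv v).pos h).ne', Real.log_mul (local_m2_pos v ha).ne' (local_m2_pos v hx).ne', ei, ej,
      hp, hq, hr]
    push_cast
    ring
  have h2 : (0 : ℤ) ≤ p + q - r := by
    by_contra hcon
    push Not at hcon
    have h3 : ((p + q - r : ℤ) : ℝ) < 0 := by exact_mod_cast hcon
    rw [h1] at h0
    nlinarith [KR.log_Nv_pos' v]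
  refine ⟨(p + q - r).toNat, ?_⟩
  rw [h1]
  congr 1
  exact_mod_cast (Int.toNat_of_nonneg h2).symm

private theorem local_m2_le (v : Pr K) {a b x : Fin 2 → K} (ha : KR.m2 v a = 1)
    (hb : KR.m2 v b = 1) (hab : fv v (form a b) = 1) :
    KR.m2 v x ≤ max (fv v (form a x)) (fv v (form b x)) := by
  have key : ∀ j : Fin 2, fv v (x j) ≤ max (fv v (form a x)) (fv v (form b x)) := by
    intro j
    have e : b j * form a x - a j * form b x = form a b * x j := by
      fin_cases j
      · exact KR.recover0 a b x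
      · exact KR.recover1 a b x
    have hbj : fv v (b j) ≤ 1 := by
      rw [← hb]
      fin_cases j
      · exact le_max_left _ _
      · exact le_max_right _ _
    have haj : fv v (a j) ≤ 1 := by
      rw [← ha]
      fin_cases j
      · exact le_max_left _ _
      · exact le_max_right _ _
    have h3 : fv v (x j) = fv v (b j * form a x - a j * form b x) := by
      rw [e, map_mul, hab, one_mul]
    rw [h3]
    refine (KR.fv_sub_le v _ _).trans (max_le_max ?_ ?_)
    · rw [map_mul]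
      exact mul_le_of_le_one_left ((fv v).nonneg _) hbj
    · rw [map_mul]
      exact mul_le_of_le_one_left ((fv v).nonneg _) haj
  exact max_le (key 0) (key 1)

/-- the defects of the cross ratio are the local heights -/
theorem gd_tt {a : Fin 3 → Fin 2 → K} (ha : ∀ i j, i ≠ j → form (a i) (a j) ≠ 0)
    {x : Fin 2 → K} (hx : ∀ i, form (a i) x ≠ 0) {v : Pr K} (hg : GoodPr a v) :
    gd (Sum.inr v : Pl K) (tt a x) = ∑ k, localHeight v (a k) x := by
  have hc : ∀ i, fv v (KR.cc a i) = 1 := by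
    intro i
    fin_cases i
    · exact hg.2 1 2 (by decide)
    · exact hg.2 2 0 (by decide)
    · exact hg.2 0 1 (by decide)
  have hu0 : KR.cc a 1 * form (a 1) x ≠ 0 := mul_ne_zero (KR.cc_ne ha 1) (hx 1)
  set u : ℝ := fv v (KR.cc a 1 * form (a 1) x)⁻¹ with hu
  have hupos : 0 < u := (fv v).pos (inv_ne_zero hu0)
  have hL : ∀ i, fv v (L i (tt a x)) = u * fv v (form (a i) x) := by
    intro i
    rw [KR.L_tt ha hx i, map_mul, map_mul, hc i, one_mul]
  have hM : M (Sum.inr v : Pl K) (tt a x) = u * KR.m2 v x := by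
    refine le_antisymm ?_ ?_
    · obtain ⟨i, hi⟩ := M_attained (Sum.inr v : Pl K) (tt a x)
      have hi' : M (Sum.inr v : Pl K) (tt a x) = fv v (L i (tt a x)) := hi
      rw [hi', hL]
      refine mul_le_mul_of_nonneg_left ?_ hupos.le
      have := KR.form_le v (a i) x
      rwa [hg.1 i, one_mul] at this
    · have h1 := local_m2_le v (x := x) (hg.1 0) (hg.1 1) (hg.2 0 1 (by decide))
      have h2 : ∀ i, u * fv v (form (a i) x) ≤ M (Sum.inr v : Pl K) (tt a x) := by
        intro i
        rw [← hL]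
        exact av_L_le (Sum.inr v : Pl K) (tt a x) i
      rcases max_choice (fv v (form (a 0) x)) (fv v (form (a 1) x)) with h | h
      · rw [h] at h1
        exact (mul_le_mul_of_nonneg_left h1 hupos.le).trans (h2 0)
      · rw [h] at h1
        exact (mul_le_mul_of_nonneg_left h1 hupos.le).trans (h2 1)
  have hxne : x ≠ 0 := by
    rintro rfl
    apply hx 0
    unfold form
    simp
  have hm := local_m2_pos v hxne
  unfold gd
  refine Finset.sum_congr rfl fun i _ => ?_
  rw [KR.df_inr, hM, hL, KR.localHeight_eq, hg.1 i, one_mul, Real.log_mul hupos.ne' hm.ne',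
    Real.log_mul hupos.ne' ((fv v).pos (hx i)).ne', Real.log_div hm.ne' ((fv v).pos (hx i)).ne']
  ring

private theorem local_hgt_eq {t : K} (ht : Pt t) :
    Height.logHeight (fun i : Fin 3 => L i t) = hgt t := by
  have hne : (fun i : Fin 3 => L i t) ≠ 0 := by
    intro h
    have := congrFun h 1
    exact L_ne ht 1 this
  have hsup : ∀ v : Pl K, (⨆ i : Fin 3, av v (L i t)) = M v t := by
    intro v
    refine le_antisymm (ciSup_le fun i => av_L_le v t i) ?_
    obtain ⟨i, hi⟩ := M_attained v t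
    rw [hi]
    exact le_ciSup (f := fun i : Fin 3 => av v (L i t)) (Set.finite_range _).bddAbove i
  have hM0 : ∀ v : Pl K, 0 < M v t := fun v => lt_of_lt_of_le one_pos (one_le_M v t)
  rw [Height.logHeight_eq_log_mulHeight, NumberField.mulHeight_eq hne]
  have h1 : ∏ᶠ v : FinitePlace K, ⨆ i : Fin 3, v (L i t) = ∏ v ∈ sp t, M (Sum.inr v : Pl K) t := by
    rw [← finprod_comp_equiv (FinitePlace.equivHeightOneSpectrum (K := K)).symm]
    have h2 : ∀ v : Pr K, (⨆ i : Fin 3,
        ((FinitePlace.equivHeightOneSpectrum (K := K)).symm v) (L i t)) = M (Sum.inr v : Pl K) t :=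
      fun v => hsup (Sum.inr v)
    simp_rw [h2]
    refine finprod_eq_prod_of_mulSupport_subset _ ?_
    intro v hv
    by_contra h
    rw [Function.mem_mulSupport] at hv
    apply hv
    obtain ⟨i, hi⟩ := M_attained (Sum.inr v : Pl K) t
    rw [hi]
    exact fv_L ht h i
  have h3 : ∏ w : InfinitePlace K, (⨆ i : Fin 3, w (L i t)) ^ w.mult =
      ∏ w : InfinitePlace K, M (Sum.inl w : Pl K) t ^ w.mult :=
    Finset.prod_congr rfl fun w _ => by
      have := hsup (Sum.inl w)
      rw [← this]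
      rfl
  rw [h1, h3, Real.log_mul, Real.log_prod, Real.log_prod]
  · unfold hgt
    rw [sum_Spl]
    congr 1
    · refine Finset.sum_congr rfl fun w _ => ?_
      rw [Real.log_pow]
      rfl
    · refine Finset.sum_congr rfl fun v _ => ?_
      show _ = 1 * Real.log (M (Sum.inr v : Pl K) t)
      rw [one_mul]
  · exact fun v _ => (hM0 _).ne'
  · exact fun w _ => pow_ne_zero _ (hM0 _).ne'
  · exact Finset.prod_ne_zero_iff.2 fun w _ => pow_ne_zero _ (hM0 _).ne'
  · exact Finset.prod_ne_zero_iff.2 fun v _ => (hM0 _).ne'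

/-- the height of the cross ratio from below -/
theorem hgt_tt_ge {a : Fin 3 → Fin 2 → K} (ha : ∀ i j, i ≠ j → form (a i) (a j) ≠ 0) :
    ∃ c : ℝ, ∀ x : Fin 2 → K, x ≠ 0 → (∀ i, form (a i) x ≠ 0) →
      Height.logHeight x ≤ hgt (tt a x) + c := by
  set A : Fin 2 × Fin 3 → K := fun p => (form (a 0) (a 1))⁻¹ *
    ![a 1 p.1 * (KR.cc a 0)⁻¹, -(a 0 p.1 * (KR.cc a 1)⁻¹), 0] p.2 with hA
  refine ⟨Height.totalWeight K * Real.log (Nat.card (Fin 3)) + Height.logHeight A, ?_⟩
  intro x hx0 hx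
  have hD : form (a 0) (a 1) ≠ 0 := ha 0 1 (by decide)
  have hu0 : KR.cc a 1 * form (a 1) x ≠ 0 := mul_ne_zero (KR.cc_ne ha 1) (hx 1)
  have h1 : (KR.cc a 1 * form (a 1) x)⁻¹ • x =
      fun j : Fin 2 => ∑ i : Fin 3, A (j, i) * L i (tt a x) := by
    funext j
    have e : a 1 j * form (a 0) x - a 0 j * form (a 1) x = form (a 0) (a 1) * x j := by
      fin_cases j
      · exact KR.recover0 (a 0) (a 1) x
      · exact KR.recover1 (a 0) (a 1) x
    rw [Fin.sum_univ_three, KR.L_tt ha hx 0, KR.L_tt ha hx 1, KR.L_tt ha hx 2, Pi.smul_apply,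
      smul_eq_mul]
    have c0 := KR.cc_ne ha 0
    have c1 := KR.cc_ne ha 1
    have hA0 : A (j, 0) = (form (a 0) (a 1))⁻¹ * (a 1 j * (KR.cc a 0)⁻¹) := rfl
    have hA1 : A (j, 1) = (form (a 0) (a 1))⁻¹ * (-(a 0 j * (KR.cc a 1)⁻¹)) := rfl
    have hA2 : A (j, 2) = (form (a 0) (a 1))⁻¹ * 0 := rfl
    rw [hA0, hA1, hA2]
    generalize (KR.cc a 1 * form (a 1) x)⁻¹ = w
    have e2 : (form (a 0) (a 1))⁻¹ * (a 1 j * (KR.cc a 0)⁻¹) * (w * (KR.cc a 0 * form (a 0) x)) +
        (form (a 0) (a 1))⁻¹ * (-(a 0 j * (KR.cc a 1)⁻¹)) * (w * (KR.cc a 1 * form (a 1) x)) +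
        (form (a 0) (a 1))⁻¹ * 0 * (w * (KR.cc a 2 * form (a 2) x)) =
        w * (form (a 0) (a 1))⁻¹ * (a 1 j * form (a 0) x * ((KR.cc a 0)⁻¹ * KR.cc a 0) -
          a 0 j * form (a 1) x * ((KR.cc a 1)⁻¹ * KR.cc a 1)) := by ring
    rw [e2, inv_mul_cancel₀ c0, inv_mul_cancel₀ c1, mul_one, mul_one, e, mul_assoc,
      inv_mul_cancel_left₀ hD]
  rw [← Height.logHeight_smul_eq_logHeight x (inv_ne_zero hu0), h1,
    ← local_hgt_eq (KR.Pt_tt ha hx)]
  refine (Height.logHeight_linearMap_apply_le A fun i : Fin 3 => L i (tt a x)).trans ?_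
  linarith

end Pool.Agent.TH876.LT
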